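import Pool.Agent.MP_48b1c3_nt.Mg.Final

set_option autoImplicit false

theorem Pool.Agent.Results.MP_48b1c3_nt.BrownZassenhaus.result
    (a : ℕ → ℕ) (ha : ∀ i, (a i).Prime) (hinj : Function.Injective a)
    (hg : ∀ η : ℝ, 0 < η → ∀ᶠ i : ℕ in Filter.atTop, Real.log (a i) ≤ (i : ℝ) ^ η)
    (r : ℕ → ℕ)
    (hr : Filter.Tendsto (fun q : ℕ => (r q : ℝ) * Real.log (Real.log q) / Real.log q)
      Filter.atTop Filter.atTop) :
    Filter.Tendsto (fun x : ℕ =>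
      (Nat.card {q : ℕ // q ≤ x ∧ q.Prime ∧
        Subgroup.closure {u : (ZMod q)ˣ | ∃ i < r q, (u : ZMod q) = (a i : ZMod q)} = ⊤} : ℝ) /
      (Nat.card {q : ℕ // q ≤ x ∧ q.Prime} : ℝ)) Filter.atTop (nhds 1) :=
  Pool.Agent.MP_48b1c3_nt.main ha hinj hg hr
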