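import Pool.Agent.MP_48b1c3_nt.H99.Fin

namespace Pool.Agent.Results.MP_48b1c3_nt.EuclidFinite

open NumberField Pool.Agent.MP_48b1c3_nt.H91
open scoped nonZeroDivisors

/-- Outside finitely many fields, few generators of the class group of a ring of `S`-integers
fail to be Euclidean ideal classes. -/
theorem result (k : ℕ) : ∃ D : ℕ, ∀ (K : Type) [Field K] [NumberField K] (s : 𝓞 K) (R : Type)
    [CommRing R] [IsDedekindDomain R] [Algebra (𝓞 K) R] [IsLocalization.Away s R],
    D ≤ (discr K).natAbs →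
    (IsCMField K → D ≤ (discr (maximalRealSubfield K)).natAbs ∨ Nat.card (ClassGroup R) ≤ k) →
    (IsTotallyComplex K → IsCyclic (ClassGroup (𝓞 K))) →
    (¬ IsTotallyComplex K → Odd (Nat.card (ClassGroup R))) →
      k * {c : ClassGroup R | Subgroup.zpowers c = ⊤ ∧ ∃ C : (Ideal R)⁰, ClassGroup.mk0 C = c ∧
        ¬ EuclideanIdeal ((C : Ideal R) : FractionalIdeal R⁰ (FractionRing R))}.ncard <
        Nat.card (ClassGroup R) := by
  obtain ⟨D, h⟩ := MP_48b1c3_nt.H99.formH k
  exact ⟨D, fun K _ _ s R _ _ _ _ => h K s R⟩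

end Pool.Agent.Results.MP_48b1c3_nt.EuclidFinite
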