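import Pool.Agent.MP_48b1c3_nt.Mg.H48_HypP
import Pool.Agent.MP_48b1c3_nt.Mg.H91_Suff

namespace Pool.Agent.Results.MP_48b1c3_nt.EuclidPlaces

open NumberField Pool.Agent.MP_48b1c3_nt.H91

/-- If `S` has at least `max 4 [K : ℚ]` places, generators of the class group of the ring of
`S`-integers are Euclidean. -/
theorem result : ∀ (K : Type) [Field K] [NumberField K] (s : 𝓞 K) (R : Type) [CommRing R]
    [IsDedekindDomain R] [Algebra (𝓞 K) R] [IsLocalization.Away s R],
    max 4 (Module.finrank ℚ K) ≤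
      Nat.card (InfinitePlace K) + {P : Ideal (𝓞 K) | P.IsMaximal ∧ s ∈ P}.ncard →
    GeneratorsEuclidean K R := by
  obtain ⟨r₀, δ, -, h⟩ := MP_48b1c3_nt.H48.core_thr
  intro K _ _ s R _ _ _ _ hK
  rw [Nat.card_eq_fintype_card, ← MP_48b1c3_nt.H48.rank_succ, add_right_comm] at hK
  obtain ⟨h1, β, h2, h3⟩ := h K _ (MP_48b1c3_nt.H48.thr_of_rank hK)
  exact euclid_of_core h2 h1 le_rfl h3

end Pool.Agent.Results.MP_48b1c3_nt.EuclidPlaces
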