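import Pool.Agent.MP_48b1c3_nt.Mg.H48_HypP
import Pool.Agent.MP_48b1c3_nt.Mg.H91_Gal

namespace Pool.Agent.Results.MP_48b1c3_nt.RankHalf

open NumberField

/-- Lenstra's set `S(K, F, C, W, k)`: the maximal ideals `P` of `𝓞 K` with a Frobenius element
in `C`, such that `W` consists of `P`-units and the index of `W mod P` divides `k`. -/
def LenstraSet {K F : Type} [Field K] [NumberField K] [Field F] [NumberField F] [Algebra K F]
    (C : Set (F ≃ₐ[K] F)) (W : Subgroup Kˣ) (k : ℕ) : Set (Ideal (𝓞 K)) :=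
  {P | P.IsMaximal ∧
    (∃ σ ∈ C, ∃ Q : Ideal (𝓞 F), Q.IsPrime ∧ Q.comap (algebraMap (𝓞 K) (𝓞 F)) = P ∧
      ∀ a b : 𝓞 F, (b : F) = σ a → b - a ^ Ideal.absNorm P ∈ Q) ∧
    (∀ w ∈ W, ∃ a b : 𝓞 K, a ∉ P ∧ b ∉ P ∧ (w : K) * b = a) ∧
    (Subgroup.closure {u : (𝓞 K ⧸ P)ˣ | ∃ w ∈ W, ∃ a b : 𝓞 K, b ∉ P ∧ (w : K) * b = a ∧
      (u : 𝓞 K ⧸ P) * Ideal.Quotient.mk P b = Ideal.Quotient.mk P a}).index ∣ k}

/-- Lenstra's criterion on the cyclotomic part: one `L`-automorphism `σ` moves, for each prime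
`l`, a `q(l)`-th root of an element of `W` that lies in `L(μ_(m q(l)))`. -/
def CycCriterion {K : Type} (L : Type) [Field K] [Field L] [Algebra K L] (W : Subgroup Kˣ)
    (k : ℕ) : Prop :=
  ∃ (m : ℕ) (σ : AlgebraicClosure L ≃ₐ[L] AlgebraicClosure L), 0 < m ∧
    ∀ l : ℕ, l.Prime → ∃ w ∈ W, ∃ z ∈ IntermediateField.adjoin L
      {ζ : AlgebraicClosure L | ζ ^ (m * l ^ (k.factorization l + 1)) = 1},
        z ^ l ^ (k.factorization l + 1) = algebraMap K (AlgebraicClosure L) w ∧ σ z ≠ z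

/-- Lower bound for Lenstra's set over a number field `K` when the rank of `W` is at least
`r₀ + (1 / 2 - δ) n`, `n` the degree of the field `L`. -/
theorem result : ∃ (r₀ : ℕ) (δ : ℝ), 0 < δ ∧
    ∀ (K F : Type) [Field K] [NumberField K] [Field F] [NumberField F] [Algebra K F]
      [IsGalois K F] (L : IntermediateField K F) (C : Set (F ≃ₐ[K] F)) (W : Subgroup Kˣ)
      (k : ℕ), (∀ σ : F ≃ₐ[K] F, (∀ y ∈ L, σ y = y) → σ ∈ C) → W.FG → 0 < k →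
      CycCriterion L W k →
      r₀ + (1 / 2 - δ) * Module.finrank ℚ L ≤ Module.finrank ℤ (Additive W) →
      ∃ c : ℝ, 0 < c ∧ ∀ᶠ x : ℕ in Filter.atTop, c * x / Real.log x ^ 2 ≤
        Nat.card {P : Ideal (𝓞 K) // P ∈ LenstraSet C W k ∧ Ideal.absNorm P ≤ x} := by
  obtain ⟨r₀, δ, hδ, h⟩ := MP_48b1c3_nt.H48.core_thr
  refine ⟨r₀ + 3, min δ (1 / 2), lt_min hδ one_half_pos,
    fun K F _ _ _ _ _ _ L C W k hL hW hk ⟨m, σ, hm, H⟩ hr => ?_⟩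
  have n0 : (0 : ℝ) ≤ Module.finrank ℚ L := Nat.cast_nonneg _
  have r0 : (0 : ℝ) ≤ r₀ := Nat.cast_nonneg _
  have a1 := mul_le_mul_of_nonneg_right (sub_le_sub_left (min_le_left δ (1 / 2)) (1 / 2)) n0
  have a2 := mul_nonneg (sub_nonneg.2 (min_le_right δ (1 / 2))) n0
  push_cast at hr
  obtain ⟨h1, β, h2, h3⟩ := h L (Module.finrank ℤ (Additive W))
    (max_le (by linarith) (min_le_of_right_le (le_trans (by
      change (r₀ : ℝ) + (1 / 2 - δ) * Module.finrank ℚ L ≤ _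
      linarith) hr)))
  obtain ⟨c, hc, h4⟩ := MP_48b1c3_nt.H91.lenstra_gal L C hL h2 W hW h1 h3 hk hm σ H
  refine ⟨c, hc, h4.mono fun x hx => hx.trans_eq (congrArg _ (Nat.card_congr
    (Equiv.subtypeEquivRight fun P => ?_)))⟩
  exact ⟨fun ⟨a, b, c⟩ => ⟨⟨a, c⟩, b⟩, fun ⟨⟨a, c⟩, b⟩ => ⟨a, b, c⟩⟩

end Pool.Agent.Results.MP_48b1c3_nt.RankHalf
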